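import Pool.Agent.V11281.FTVS.Sep

/-!
# Countable tightness of the levels of free topological vector spaces

For a metrizable space `X`, if `sp 2` has countable tightness, then `X` is separable and so every
`sp n` has countable tightness.
-/

set_option autoImplicit false

open Set Topology Filter

namespace Pool.Agent.Results.MP_723ccc_gt.TightnessLevels

open Pool.Agent.V11281.FTVS

universe u

/-- countable tightness -/
def CountablyTight (Z : Type u) [TopologicalSpace Z] : Prop :=
  ∀ (A : Set Z), ∀ z ∈ closure A, ∃ B ⊆ A, B.Countable ∧ z ∈ closure B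

/-- continuous images of second countable spaces are countably tight -/
lemma countablyTight_of_surjective {P Z : Type u} [TopologicalSpace P] [TopologicalSpace Z]
    [SecondCountableTopology P] {q : P → Z} (hq : Continuous q) (hs : Function.Surjective q) :
    CountablyTight Z := by
  intro A z hz
  obtain ⟨D, hD, hDd⟩ := TopologicalSpace.exists_countable_dense (q ⁻¹' A)
  refine ⟨(fun a : q ⁻¹' A => q a) '' D, ?_, hD.image _, ?_⟩
  · rintro _ ⟨a, _, rfl⟩
    exact a.2
  · have h1 : A ⊆ closure ((fun a : q ⁻¹' A => q a) '' D) := by
      intro y hy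
      obtain ⟨x, rfl⟩ := hs y
      have h2 : (⟨x, hy⟩ : q ⁻¹' A) ∈ closure D := hDd _
      exact image_closure_subset_closure_image (hq.comp continuous_subtype_val) ⟨_, h2, rfl⟩
    exact closure_minimal h1 isClosed_closure hz

/-- the levels over separable metrizable spaces are countably tight -/
lemma countablyTight_sp {X : Type u} [TopologicalSpace X] [SecondCountableTopology X] (n : ℕ) :
    CountablyTight (sp X n) := by
  let q : (Fin n → Icc (-(n : ℝ)) n) × (Fin n → X) → sp X n := fun p =>
    ⟨∑ i, (p.1 i : ℝ) • ι (p.2 i), fun i => p.1 i, p.2, fun i => (p.1 i).2, rfl⟩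
  have hq : Continuous q := by
    apply Continuous.subtype_mk
    refine continuous_finset_sum _ fun i _ => ?_
    refine Continuous.smul (f := fun p : (Fin n → Icc (-(n : ℝ)) n) × (Fin n → X) =>
      ((p.1 i : Icc (-(n : ℝ)) n) : ℝ)) ?_ ?_
    · exact continuous_subtype_val.comp ((continuous_apply i).comp continuous_fst)
    · exact continuous_ι.comp ((continuous_apply i).comp continuous_snd)
  exact countablyTight_of_surjective hq (by
    rintro ⟨v, l, x, hl, rfl⟩
    exact ⟨(fun i => ⟨l i, hl i⟩, x), rfl⟩)

/-- **MP_723ccc_gt, Q1 (proved).** If `X` is metrizable and `sp 2` has countable tightness, then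
`sp 4` (and every `sp n`) has countable tightness, and `X` is separable. -/
theorem result {X : Type u} [TopologicalSpace X] [TopologicalSpace.MetrizableSpace X]
    (h : CountablyTight (sp X 2)) :
    TopologicalSpace.SeparableSpace X ∧ ∀ n, CountablyTight (sp X n) := by
  have hsep : TopologicalSpace.SeparableSpace X := by
    by_contra hX
    obtain ⟨S, hS, hSCD⟩ := exists_uncountable_CD hX
    obtain ⟨T, hTS, hT, φ, hφ⟩ := exists_code hS
    have hTCD : CD T := hSCD.mono hTS
    have h0 := zero_mem_closure hT hφ
    -- transfer to the subspace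
    have hsub := tset_subset_sp φ T (le_refl 2)
    have h0s : (0 : V X) ∈ sp X 2 := by
      by_cases hne : Nonempty X
      · obtain ⟨x⟩ := hne
        exact ⟨fun _ => 0, fun _ => x, fun i => by simp, by simp⟩
      · exact absurd (Set.Countable.mono (subset_univ _) (by
          have : IsEmpty X := not_nonempty_iff.1 hne
          exact to_countable _)) hT
    have h1 : (⟨0, h0s⟩ : sp X 2) ∈ closure (Subtype.val ⁻¹' (tset φ T) : Set (sp X 2)) := by
      rw [closure_subtype, Subtype.image_preimage_coe, inter_eq_right.2 hsub]
      exact h0
    obtain ⟨B, hB, hBc, hB0⟩ := h _ _ h1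
    rw [closure_subtype] at hB0
    refine zero_notMem_closure_countable (φ := φ) hTCD (B := Subtype.val '' B) ?_
      (hBc.image _) hB0
    rintro _ ⟨v, hv, rfl⟩
    exact hB hv
  refine ⟨hsep, fun n => ?_⟩
  letI : MetricSpace X := TopologicalSpace.metrizableSpaceMetric X
  have : SecondCountableTopology X := UniformSpace.secondCountable_of_separable X
  exact countablyTight_sp n

end Pool.Agent.Results.MP_723ccc_gt.TightnessLevels
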